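import Mathlib
import Pool.Agent.H456R2.Ctrl

set_option autoImplicit false

namespace Pool.Agent.Results.MP_deaef0_nt.RelatedButNotSmall

open Pool.Agent.Helper259.AbsHt Pool.Agent.H456R2

/-- The action of a pair of binary forms on homogeneous coordinates. -/
noncomputable def act {R : Type*} [CommRing R] (F : Fin 2 → MvPolynomial (Fin 2) R)
    (x : Fin 2 → R) : Fin 2 → R :=
  fun i => MvPolynomial.eval x (F i)

/-- `F` is an algebraic family, parametrised by the affine line with coordinate `X`, of morphisms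
of degree `d` of the projective line: a pair of binary forms of degree `d` whose coefficients are
polynomials in the parameter and which has no common zero for any value of the parameter. -/
def IsFamily (d : ℕ) (F : Fin 2 → MvPolynomial (Fin 2) (Polynomial Qbar)) : Prop :=
  (∀ i, (F i).IsHomogeneous d) ∧ ∀ (t : Qbar) (x : Fin 2 → Qbar),
    act (fun i => (F i).map (Polynomial.evalRingHom t)) x = 0 → x = 0

/-- The family is not constant: the coefficient vectors of two of its members are not
proportional. -/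
def IsNonconstFamily (F : Fin 2 → MvPolynomial (Fin 2) (Polynomial Qbar)) : Prop :=
  ∃ s t : Qbar, ∀ c : Qbar, ∃ i m,
    ((F i).coeff m).eval s ≠ c * ((F i).coeff m).eval t

/-- `a` is a morphism from the affine line to the projective line: a pair of polynomials without
common zero. -/
def IsPoint (a : Fin 2 → Polynomial Qbar) : Prop :=
  ∀ t : Qbar, (fun i => (a i).eval t) ≠ 0

/-- The morphism `a` is not constant: two of its values are not proportional. -/
def IsNonconstPoint (a : Fin 2 → Polynomial Qbar) : Prop :=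
  ∃ s t : Qbar, ∀ c : Qbar, ∃ i, (a i).eval s ≠ c * (a i).eval t

/-- An algebraic closure of the function field of the affine line. -/
abbrev KK : Type := AlgebraicClosure (RatFunc Qbar)

/-- The functions on the affine line as elements of `KK`. -/
noncomputable def toK : Polynomial Qbar →+* KK :=
  (algebraMap (RatFunc Qbar) KK).comp (algebraMap (Polynomial Qbar) (RatFunc Qbar))

/-- `a` and `b` are `F`-dynamically related: they lie on an algebraic curve `G = 0` in the product
of two projective lines over `KK` (where `G` is a nonzero form of some bidegree `(m, n)`, that is,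
of degree `m` in the first two variables and of degree `n` in the last two) which is mapped into
itself by `F × F`. -/
def DynamicallyRelated (F : Fin 2 → MvPolynomial (Fin 2) (Polynomial Qbar))
    (a b : Fin 2 → Polynomial Qbar) : Prop :=
  ∃ (m n : ℕ) (G : MvPolynomial (Fin 2 ⊕ Fin 2) KK), G ≠ 0 ∧
    G.IsWeightedHomogeneous (Sum.elim (fun _ => 1) (fun _ => 0) : Fin 2 ⊕ Fin 2 → ℕ) m ∧
    G.IsWeightedHomogeneous (Sum.elim (fun _ => 0) (fun _ => 1) : Fin 2 ⊕ Fin 2 → ℕ) n ∧
    MvPolynomial.eval (Sum.elim (fun i => toK (a i)) (fun i => toK (b i))) G = 0 ∧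
    ∀ x y : Fin 2 → KK, x ≠ 0 → y ≠ 0 → MvPolynomial.eval (Sum.elim x y) G = 0 →
      MvPolynomial.eval (Sum.elim (act (fun i => (F i).map toK) x)
        (act (fun i => (F i).map toK) y)) G = 0

/-- The canonical height of the point with coordinates `x` for the map of degree `d` given by the
pair of forms `F`. -/
noncomputable def canHeight (d : ℕ) (F : Fin 2 → MvPolynomial (Fin 2) Qbar) (x : Fin 2 → Qbar) :
    ℝ :=
  Filter.limUnder Filter.atTop (fun n : ℕ => absLogHeight ((act F)^[n] x) / (d : ℝ) ^ n)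

/-- The canonical height of the value of `a` at the parameter `t` for the member of the family
at `t`. -/
noncomputable def canHeightAt (d : ℕ) (F : Fin 2 → MvPolynomial (Fin 2) (Polynomial Qbar))
    (a : Fin 2 → Polynomial Qbar) (t : Qbar) : ℝ :=
  canHeight d (fun i => (F i).map (Polynomial.evalRingHom t)) (fun i => (a i).eval t)

/-! ### The example -/

open MvPolynomial in
/-- The family `z ↦ (z - t)² + t`. -/
noncomputable def FF : Fin 2 → MvPolynomial (Fin 2) (Polynomial Qbar) :=
  ![(X 0 - C Polynomial.X * X 1) ^ 2 + C Polynomial.X * X 1 ^ 2, X 1 ^ 2]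

/-- The point `t + 2`. -/
noncomputable def aa : Fin 2 → Polynomial Qbar := ![Polynomial.X + Polynomial.C 2, 1]

/-- The point `t + 4`. -/
noncomputable def bb : Fin 2 → Polynomial Qbar := ![Polynomial.X + Polynomial.C 4, 1]

lemma act_map {R : Type*} [CommRing R] (f : Polynomial Qbar →+* R) (x : Fin 2 → R) :
    act (fun i => (FF i).map f) x =
      ![(x 0 - f Polynomial.X * x 1) ^ 2 + f Polynomial.X * x 1 ^ 2, x 1 ^ 2] := by
  funext i
  fin_cases i
  · simp [act, FF]
  · simp [act, FF]

lemma iter (t c : Qbar) (n : ℕ) :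
    (act (fun i => (FF i).map (Polynomial.evalRingHom t)))^[n] ![t + c, 1] =
      ![t + c ^ (2 ^ n), 1] := by
  induction n with
  | zero => simp
  | succ n ih =>
    rw [Function.iterate_succ_apply', ih, act_map]
    funext i
    fin_cases i
    · simp only [Matrix.cons_val_zero, Matrix.cons_val_one, Polynomial.coe_evalRingHom,
        Polynomial.eval_X, mul_one, one_pow, Fin.zero_eta]
      ring
    · simp

lemma absLogHeight_swap (x y : Qbar) : absLogHeight ![x, y] = absLogHeight ![y, x] := by
  apply le_antisymm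
  · have := absLogHeight_comp_le (![1, 0] : Fin 2 → Fin 2) ![y, x]
    have e : (![y, x] : Fin 2 → Qbar) ∘ (![1, 0] : Fin 2 → Fin 2) = ![x, y] := by
      funext i; fin_cases i <;> simp
    rwa [e] at this
  · have := absLogHeight_comp_le (![1, 0] : Fin 2 → Fin 2) ![x, y]
    have e : (![x, y] : Fin 2 → Qbar) ∘ (![1, 0] : Fin 2 → Fin 2) = ![y, x] := by
      funext i; fin_cases i <;> simp
    rwa [e] at this

lemma h1_two_pow (n : ℕ) : h1 ((2 : Qbar) ^ n) = n * Real.log 2 := by
  have h := absLogHeight_int (![1, 2 ^ n] : Fin 2 → ℤ) (by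
    rw [Fin.univ_succ]
    simp)
  have e : (fun i => (((![1, 2 ^ n] : Fin 2 → ℤ) i : ℤ) : Qbar)) = ![1, 2 ^ n] := by
    funext i; fin_cases i <;> simp
  rw [e] at h
  unfold h1
  rw [h]
  have hs : (⨆ i, |(![1, 2 ^ n] : Fin 2 → ℤ) i|) = 2 ^ n := by
    apply le_antisymm
    · apply ciSup_le
      intro i
      fin_cases i
      · simpa using one_le_pow₀ (n := n) (by norm_num : (1 : ℤ) ≤ 2)
      · simp
    · have := le_ciSup (f := fun i => |(![1, 2 ^ n] : Fin 2 → ℤ) i|)
        (Set.finite_range _).bddAbove 1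
      simpa using this
  rw [hs]
  push_cast
  rw [Real.log_pow]

lemma height_iter (t : Qbar) (c : Qbar) (k : ℕ) (hc : c = 2 ^ k) :
    canHeight 2 (fun i => (FF i).map (Polynomial.evalRingHom t)) ![t + c, 1] =
      k * Real.log 2 := by
  obtain ⟨C, hC0, hC⟩ := h1_add_le
  apply Filter.Tendsto.limUnder_eq
  have hb : ∀ n : ℕ, |absLogHeight ((act (fun i => (FF i).map (Polynomial.evalRingHom t)))^[n]
      ![t + c, 1]) / ((2 : ℕ) : ℝ) ^ n - k * Real.log 2| ≤ (C + h1 t + h1 (-t)) * (1 / 2) ^ n := by
    intro n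
    rw [iter, absLogHeight_swap]
    have e1 : c ^ (2 ^ n) = 2 ^ (k * 2 ^ n) := by rw [hc, ← pow_mul]
    have u1 : h1 (t + c ^ (2 ^ n)) ≤ C + h1 t + h1 (c ^ (2 ^ n)) := hC _ _
    have u2 : h1 (c ^ (2 ^ n)) ≤ C + h1 (-t) + h1 (t + c ^ (2 ^ n)) := by
      have := hC (-t) (t + c ^ (2 ^ n))
      rwa [neg_add_cancel_left] at this
    rw [e1, h1_two_pow] at u1 u2
    have e2 : absLogHeight ![1, t + c ^ (2 ^ n)] = h1 (t + c ^ (2 ^ n)) := rfl
    rw [e2, e1]
    push_cast at u1 u2 ⊢
    have h2 : (0 : ℝ) < 2 ^ n := by positivity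
    have e3 : h1 (t + 2 ^ (k * 2 ^ n)) / (2 : ℝ) ^ n - k * Real.log 2 =
        (h1 (t + 2 ^ (k * 2 ^ n)) - k * 2 ^ n * Real.log 2) * (1 / 2) ^ n := by
      rw [one_div, inv_pow]
      field_simp
    rw [e3, abs_mul, abs_of_nonneg (by positivity : (0 : ℝ) ≤ (1 / 2) ^ n)]
    refine mul_le_mul_of_nonneg_right ?_ (by positivity)
    have n1 := h1_nonneg t
    have n2 := h1_nonneg (-t)
    rw [abs_le]
    constructor <;> linarith
  have hz := (tendsto_pow_atTop_nhds_zero_of_lt_one (r := (1 / 2 : ℝ)) (by norm_num)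
    (by norm_num)).const_mul (C + h1 t + h1 (-t))
  rw [mul_zero] at hz
  rw [tendsto_iff_norm_sub_tendsto_zero]
  exact squeeze_zero (fun n => norm_nonneg _) (fun n => (Real.norm_eq_abs _).trans_le (hb n)) hz

open MvPolynomial in
/-- The graph of the family. -/
noncomputable def GG : MvPolynomial (Fin 2 ⊕ Fin 2) KK :=
  X (Sum.inr 0) * X (Sum.inl 1) ^ 2 -
    X (Sum.inr 1) * ((X (Sum.inl 0) - C (toK Polynomial.X) * X (Sum.inl 1)) ^ 2 +
      C (toK Polynomial.X) * X (Sum.inl 1) ^ 2)

open MvPolynomial in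
lemma GG_hom1 : GG.IsWeightedHomogeneous
    (Sum.elim (fun _ => 1) (fun _ => 0) : Fin 2 ⊕ Fin 2 → ℕ) 2 := by
  have hl : ∀ i : Fin 2, (X (Sum.inl i) : MvPolynomial (Fin 2 ⊕ Fin 2) KK).IsWeightedHomogeneous
      (Sum.elim (fun _ => 1) (fun _ => 0) : Fin 2 ⊕ Fin 2 → ℕ) 1 := fun i =>
    isWeightedHomogeneous_X KK _ (Sum.inl i)
  have hr : ∀ i : Fin 2, (X (Sum.inr i) : MvPolynomial (Fin 2 ⊕ Fin 2) KK).IsWeightedHomogeneous
      (Sum.elim (fun _ => 1) (fun _ => 0) : Fin 2 ⊕ Fin 2 → ℕ) 0 := fun i =>
    isWeightedHomogeneous_X KK _ (Sum.inr i)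
  have hc : ∀ c : KK, (C c : MvPolynomial (Fin 2 ⊕ Fin 2) KK).IsWeightedHomogeneous
      (Sum.elim (fun _ => 1) (fun _ => 0) : Fin 2 ⊕ Fin 2 → ℕ) 0 := fun c =>
    isWeightedHomogeneous_C _ c
  have e1 := (hr 0).mul ((hl 1).pow 2)
  have e2 := ((hl 0).sub ((hc (toK Polynomial.X)).mul (hl 1))).pow 2
  have e3 := (hc (toK Polynomial.X)).mul ((hl 1).pow 2)
  have e4 := (hr 1).mul (e2.add e3)
  exact e1.sub e4

open MvPolynomial in
lemma GG_hom2 : GG.IsWeightedHomogeneous
    (Sum.elim (fun _ => 0) (fun _ => 1) : Fin 2 ⊕ Fin 2 → ℕ) 1 := by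
  have hl : ∀ i : Fin 2, (X (Sum.inl i) : MvPolynomial (Fin 2 ⊕ Fin 2) KK).IsWeightedHomogeneous
      (Sum.elim (fun _ => 0) (fun _ => 1) : Fin 2 ⊕ Fin 2 → ℕ) 0 := fun i =>
    isWeightedHomogeneous_X KK _ (Sum.inl i)
  have hr : ∀ i : Fin 2, (X (Sum.inr i) : MvPolynomial (Fin 2 ⊕ Fin 2) KK).IsWeightedHomogeneous
      (Sum.elim (fun _ => 0) (fun _ => 1) : Fin 2 ⊕ Fin 2 → ℕ) 1 := fun i =>
    isWeightedHomogeneous_X KK _ (Sum.inr i)
  have hc : ∀ c : KK, (C c : MvPolynomial (Fin 2 ⊕ Fin 2) KK).IsWeightedHomogeneous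
      (Sum.elim (fun _ => 0) (fun _ => 1) : Fin 2 ⊕ Fin 2 → ℕ) 0 := fun c =>
    isWeightedHomogeneous_C _ c
  have e1 := (hr 0).mul ((hl 1).pow 2)
  have e2 := ((hl 0).sub ((hc (toK Polynomial.X)).mul (hl 1))).pow 2
  have e3 := (hc (toK Polynomial.X)).mul ((hl 1).pow 2)
  have e4 := (hr 1).mul (e2.add e3)
  exact e1.sub e4

lemma eval_GG (x y : Fin 2 → KK) : MvPolynomial.eval (Sum.elim x y) GG =
    y 0 * x 1 ^ 2 - y 1 * ((x 0 - toK Polynomial.X * x 1) ^ 2 + toK Polynomial.X * x 1 ^ 2) := by
  simp [GG]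

lemma vec_eta {R : Type*} (x : Fin 2 → R) : x = ![x 0, x 1] := by
  funext i
  fin_cases i <;> rfl

/-- **The equivalence fails.** There is an algebraic family `f` of morphisms of degree `2` of the
projective line, parametrised by the affine line, and there are morphisms `a`, `b` from the affine
line to the projective line, none of the three being constant, such that `a` and `b` are
`f`-dynamically related, but for some `ε > 0` the set of the parameters `t` for which the
canonical heights of `a t` and of `b t` for `f t` are at most `ε` is finite (even empty). -/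
theorem result : ∃ (F : Fin 2 → MvPolynomial (Fin 2) (Polynomial Qbar))
    (a b : Fin 2 → Polynomial Qbar),
    IsFamily 2 F ∧ IsNonconstFamily F ∧ IsPoint a ∧ IsNonconstPoint a ∧ IsPoint b ∧
    IsNonconstPoint b ∧ DynamicallyRelated F a b ∧
    ∃ ε : ℝ, 0 < ε ∧ {t : Qbar | canHeightAt 2 F a t ≤ ε ∧ canHeightAt 2 F b t ≤ ε} = ∅ := by
  refine ⟨FF, aa, bb, ⟨?_, ?_⟩, ?_, ?_, ?_, ?_, ?_, ?_, ?_⟩
  · have hX : ∀ i : Fin 2, (MvPolynomial.X i : MvPolynomial (Fin 2) (Polynomial Qbar)).IsHomogeneous
      1 := fun i => MvPolynomial.isHomogeneous_X _ i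
    intro i
    fin_cases i
    · have e1 := ((hX 0).sub ((hX 1).C_mul Polynomial.X)).pow 2
      have e2 := ((hX 1).pow 2).C_mul Polynomial.X
      exact e1.add e2
    · exact (hX 1).pow 2
  · intro t x hx
    rw [act_map] at hx
    have h0 := congrFun hx 0
    have h1 := congrFun hx 1
    simp only [Matrix.cons_val_zero, Matrix.cons_val_one, Pi.zero_apply] at h0 h1
    have h2 : x 1 = 0 := by simpa using h1
    rw [h2] at h0
    have h3 : x 0 = 0 := by simpa using h0
    rw [vec_eta x, h2, h3]
    funext i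
    fin_cases i <;> rfl
  · refine ⟨0, 1, fun c => ?_⟩
    by_contra hcon
    push Not at hcon
    -- the coefficient of `X₁²` in the second form is `1`
    have h1 := hcon 1 (Finsupp.single 1 2)
    have h2 := hcon 0 (Finsupp.single 0 1 + Finsupp.single 1 1)
    have c1 : MvPolynomial.coeff (Finsupp.single 1 2) (FF 1) = 1 := by
      have : FF 1 = MvPolynomial.X 1 ^ 2 := rfl
      rw [this, MvPolynomial.X_pow_eq_monomial, MvPolynomial.coeff_monomial, if_pos rfl]
    have c2 : MvPolynomial.coeff (Finsupp.single 0 1 + Finsupp.single 1 1) (FF 0) =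
        -2 * Polynomial.X := by
      have e0 : FF 0 = MvPolynomial.monomial (Finsupp.single 0 2) 1 -
          MvPolynomial.monomial (Finsupp.single 0 1 + Finsupp.single 1 1) (2 * Polynomial.X) +
          MvPolynomial.monomial (Finsupp.single 1 2) (Polynomial.X ^ 2 + Polynomial.X) := by
        have : FF 0 = (MvPolynomial.X 0 - MvPolynomial.C Polynomial.X * MvPolynomial.X 1) ^ 2 +
            MvPolynomial.C Polynomial.X * MvPolynomial.X 1 ^ 2 := rfl
        rw [this]
        have m1 : (MvPolynomial.monomial (Finsupp.single 0 2) 1 :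
            MvPolynomial (Fin 2) (Polynomial Qbar)) = MvPolynomial.X 0 ^ 2 :=
          (MvPolynomial.X_pow_eq_monomial).symm
        have m2 : (MvPolynomial.monomial (Finsupp.single 0 1 + Finsupp.single 1 1)
            (2 * Polynomial.X) : MvPolynomial (Fin 2) (Polynomial Qbar)) =
            MvPolynomial.C (2 * Polynomial.X) * (MvPolynomial.X 0 * MvPolynomial.X 1) := by
          rw [MvPolynomial.X, MvPolynomial.X, MvPolynomial.monomial_mul,
            MvPolynomial.C_mul_monomial]
          simp
        have m3 : (MvPolynomial.monomial (Finsupp.single 1 2)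
            (Polynomial.X ^ 2 + Polynomial.X) : MvPolynomial (Fin 2) (Polynomial Qbar)) =
            MvPolynomial.C (Polynomial.X ^ 2 + Polynomial.X) * MvPolynomial.X 1 ^ 2 := by
          rw [MvPolynomial.X_pow_eq_monomial, MvPolynomial.C_mul_monomial, mul_one]
        rw [m1, m2, m3]
        simp only [map_add, map_mul, map_pow, map_ofNat]
        ring
      have d1 : (Finsupp.single 0 2 : Fin 2 →₀ ℕ) ≠ Finsupp.single 0 1 + Finsupp.single 1 1 := by
        intro h
        have := DFunLike.congr_fun h 1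
        simp at this
      have d2 : (Finsupp.single 1 2 : Fin 2 →₀ ℕ) ≠ Finsupp.single 0 1 + Finsupp.single 1 1 := by
        intro h
        have := DFunLike.congr_fun h 0
        simp at this
      rw [e0, MvPolynomial.coeff_add, MvPolynomial.coeff_sub, MvPolynomial.coeff_monomial,
        MvPolynomial.coeff_monomial, MvPolynomial.coeff_monomial, if_neg d1, if_pos rfl, if_neg d2]
      ring
    rw [c1] at h1
    rw [c2] at h2
    simp only [Polynomial.eval_one, mul_one] at h1
    rw [← h1] at h2
    simp at h2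
  · intro t h
    have := congrFun h 1
    simp [aa] at this
  · refine ⟨0, 1, fun c => ?_⟩
    by_contra hcon
    push Not at hcon
    have h0 := hcon 0
    have h1 := hcon 1
    simp only [aa, Matrix.cons_val_zero, Matrix.cons_val_one, Polynomial.eval_add,
      Polynomial.eval_X, Polynomial.eval_C, Polynomial.eval_one, mul_one] at h0 h1
    rw [← h1] at h0
    norm_num at h0
  · intro t h
    have := congrFun h 1
    simp [bb] at this
  · refine ⟨0, 1, fun c => ?_⟩
    by_contra hcon
    push Not at hcon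
    have h0 := hcon 0
    have h1 := hcon 1
    simp only [bb, Matrix.cons_val_zero, Matrix.cons_val_one, Polynomial.eval_add,
      Polynomial.eval_X, Polynomial.eval_C, Polynomial.eval_one, mul_one] at h0 h1
    rw [← h1] at h0
    norm_num at h0
  · refine ⟨2, 1, GG, ?_, GG_hom1, GG_hom2, ?_, ?_⟩
    · intro h
      have := eval_GG ![0, 1] ![1, 0]
      rw [h] at this
      simp at this
    · rw [eval_GG]
      simp only [aa, bb, Matrix.cons_val_zero, Matrix.cons_val_one, map_add, map_one]
      have e2 : toK (Polynomial.C 2) = 2 := by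
        have : (Polynomial.C 2 : Polynomial Qbar) = 2 := rfl
        rw [this, map_ofNat]
      have e4 : toK (Polynomial.C 4) = 4 := by
        have : (Polynomial.C 4 : Polynomial Qbar) = 4 := rfl
        rw [this, map_ofNat]
      rw [e2, e4]
      ring
    · intro x y hx hy hxy
      rw [eval_GG] at hxy ⊢
      rw [act_map, act_map]
      simp only [Matrix.cons_val_zero, Matrix.cons_val_one]
      -- `y` is proportional to the image of `x`
      set p := (x 0 - toK Polynomial.X * x 1) ^ 2 + toK Polynomial.X * x 1 ^ 2 with hp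
      set q := x 1 ^ 2 with hq
      have hpq : q ≠ 0 ∨ p ≠ 0 := by
        by_contra hcon
        push Not at hcon
        obtain ⟨h1, h2⟩ := hcon
        have h3 : x 1 = 0 := by simpa [hq] using h1
        rw [hp, h1, h3] at h2
        have h4 : x 0 = 0 := by simpa using h2
        apply hx
        rw [vec_eta x, h3, h4]
        funext i
        fin_cases i <;> rfl
      obtain ⟨c, hc0, hc1⟩ : ∃ c : KK, y 0 = c * p ∧ y 1 = c * q := by
        rcases hpq with h | h
        · refine ⟨y 1 / q, ?_, by field_simp⟩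
          field_simp
          linear_combination hxy
        · refine ⟨y 0 / p, by field_simp, ?_⟩
          field_simp
          linear_combination -hxy
      rw [hc0, hc1]
      ring
  · refine ⟨1 / 2, by norm_num, ?_⟩
    ext t
    simp only [Set.mem_ofPred_eq, Set.mem_empty_iff_false, iff_false, not_and]
    intro h _
    have e : (fun i => (aa i).eval t) = ![t + 2, 1] := by
      funext i
      fin_cases i <;> simp [aa]
    have h2 := height_iter t 2 1 (by norm_num)
    rw [canHeightAt, e] at h
    have h3 := Real.log_two_gt_d9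
    have h4 : ((1 : ℕ) : ℝ) * Real.log 2 ≤ 1 / 2 := by
      rw [← h2]
      exact h
    norm_num at h4
    linarith

end Pool.Agent.Results.MP_deaef0_nt.RelatedButNotSmall
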